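import Pool.Agent.Helper48.KV.GoalsJ

/-!
# PROJECT KV (MP_66be51_an), packet CUT: the moving cut-off
-/

open MeasureTheory Set Filter Topology

noncomputable section

namespace Pool.Agent.Helper97.KV

open Pool.Agent.Helper33.KV Pool.Agent.Helper41.KV Pool.Agent.Helper48.KV

/-! ### Composition of a bounded smooth field with a smooth function -/

/-- jointly continuous and bounded on `[a,b] × ℝ` -/
def CB0 (a b : ℝ) (F : ℝ → ℝ → ℝ) : Prop :=
  ContinuousOn (fun z : ℝ × ℝ => F z.1 z.2) (Icc a b ×ˢ univ) ∧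
    ∃ C : ℝ, ∀ t ∈ Icc a b, ∀ x, |F t x| ≤ C

/-- `F` and its first `n` space derivatives are jointly continuous and bounded. -/
def CBn (a b : ℝ) : ℕ → (ℝ → ℝ → ℝ) → Prop
  | 0, F => CB0 a b F
  | n + 1, F => CB0 a b F ∧ (∀ t ∈ Icc a b, Differentiable ℝ (F t)) ∧
      CBn a b n (fun t x => deriv (F t) x)

lemma CB0.congr {a b : ℝ} {F G : ℝ → ℝ → ℝ} (h : CB0 a b F)
    (hFG : ∀ t ∈ Icc a b, F t = G t) : CB0 a b G := by
  refine ⟨h.1.congr ?_, ?_⟩
  · rintro ⟨t, x⟩ ⟨ht, -⟩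
    simp only [hFG t ht]
  · obtain ⟨C, hC⟩ := h.2
    exact ⟨C, fun t ht x => by rw [← hFG t ht]; exact hC t ht x⟩

lemma CBn.congr {a b : ℝ} : ∀ (n : ℕ) {F G : ℝ → ℝ → ℝ}, CBn a b n F →
    (∀ t ∈ Icc a b, F t = G t) → CBn a b n G
  | 0, _, _, h, hFG => CB0.congr h hFG
  | n + 1, F, G, h, hFG => by
    refine ⟨h.1.congr hFG, fun t ht => by rw [← hFG t ht]; exact h.2.1 t ht, ?_⟩
    refine CBn.congr n h.2.2 ?_
    intro t ht
    simp only [hFG t ht]

lemma CBn.zero {a b : ℝ} : ∀ (n : ℕ) {F : ℝ → ℝ → ℝ}, CBn a b n F → CB0 a b F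
  | 0, _, h => h
  | _ + 1, _, h => h.1

lemma CBn.pred {a b : ℝ} : ∀ (n : ℕ) {F : ℝ → ℝ → ℝ}, CBn a b (n + 1) F → CBn a b n F
  | 0, _, h => h.1
  | n + 1, _, h => ⟨h.1, h.2.1, CBn.pred n h.2.2⟩

lemma CB0.add {a b : ℝ} {F G : ℝ → ℝ → ℝ} (hF : CB0 a b F) (hG : CB0 a b G) :
    CB0 a b (fun t x => F t x + G t x) := by
  refine ⟨hF.1.add hG.1, ?_⟩
  obtain ⟨C, hC⟩ := hF.2
  obtain ⟨D, hD⟩ := hG.2
  exact ⟨C + D, fun t ht x => (abs_add_le _ _).trans (add_le_add (hC t ht x) (hD t ht x))⟩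

lemma CB0.mul {a b : ℝ} {F G : ℝ → ℝ → ℝ} (hF : CB0 a b F) (hG : CB0 a b G) :
    CB0 a b (fun t x => F t x * G t x) := by
  refine ⟨hF.1.mul hG.1, ?_⟩
  obtain ⟨C, hC⟩ := hF.2
  obtain ⟨D, hD⟩ := hG.2
  refine ⟨C * D, fun t ht x => ?_⟩
  rw [abs_mul]
  exact mul_le_mul (hC t ht x) (hD t ht x) (abs_nonneg _) ((abs_nonneg _).trans (hC t ht x))

lemma CBn.add {a b : ℝ} : ∀ (n : ℕ) {F G : ℝ → ℝ → ℝ}, CBn a b n F → CBn a b n G →
    CBn a b n (fun t x => F t x + G t x)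
  | 0, _, _, hF, hG => CB0.add hF hG
  | n + 1, F, G, hF, hG => by
    refine ⟨hF.1.add hG.1, fun t ht => (hF.2.1 t ht).add (hG.2.1 t ht), ?_⟩
    refine CBn.congr n (CBn.add n hF.2.2 hG.2.2) ?_
    intro t ht
    funext x
    exact (deriv_fun_add ((hF.2.1 t ht) x) ((hG.2.1 t ht) x)).symm

lemma CBn.mul {a b : ℝ} : ∀ (n : ℕ) {F G : ℝ → ℝ → ℝ}, CBn a b n F → CBn a b n G →
    CBn a b n (fun t x => F t x * G t x)
  | 0, _, _, hF, hG => CB0.mul hF hG
  | n + 1, F, G, hF, hG => by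
    refine ⟨hF.1.mul hG.1, fun t ht => (hF.2.1 t ht).mul (hG.2.1 t ht), ?_⟩
    refine CBn.congr n (CBn.add n (CBn.mul n hF.2.2 (CBn.pred n hG))
      (CBn.mul n (CBn.pred n hF) hG.2.2)) ?_
    intro t ht
    funext x
    exact (deriv_fun_mul ((hF.2.1 t ht) x) ((hG.2.1 t ht) x)).symm

lemma cbn_iter {a b : ℝ} {p pt : ℝ → ℝ → ℝ} (hp : BInf p pt a b) : ∀ (n j : ℕ),
    CBn a b n (fun t x => iteratedDeriv j (p t) x)
  | 0, j => ⟨hp.cont j, hp.bound j⟩
  | n + 1, j => by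
    refine ⟨⟨hp.cont j, hp.bound j⟩, fun t ht => ?_, ?_⟩
    · exact (hp.smooth t ht).differentiable_iteratedDeriv j (by exact_mod_cast WithTop.coe_lt_top _)
    · refine CBn.congr n (cbn_iter hp n (j + 1)) ?_
      intro t ht
      rw [iteratedDeriv_succ]

lemma cb0_comp {a b : ℝ} {p pt : ℝ → ℝ → ℝ} (hp : BInf p pt a b) {G : ℝ → ℝ}
    (hG : Continuous G) : CB0 a b (fun t x => G (p t x)) := by
  refine ⟨?_, ?_⟩
  · have := hp.cont 0
    simp only [iteratedDeriv_zero] at this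
    exact hG.comp_continuousOn this
  · obtain ⟨C, hC⟩ := hp.bound 0
    simp only [iteratedDeriv_zero] at hC
    obtain ⟨D, hD⟩ := (isCompact_Icc (a := -C) (b := C)).exists_bound_of_continuousOn
      hG.continuousOn
    exact ⟨D, fun t ht x => hD _ (abs_le.1 (hC t ht x))⟩

lemma cbn_comp {a b : ℝ} {p pt : ℝ → ℝ → ℝ} (hp : BInf p pt a b) : ∀ (n : ℕ) {G : ℝ → ℝ},
    ContDiff ℝ (⊤ : ℕ∞) G → CBn a b n (fun t x => G (p t x))
  | 0, _, hG => cb0_comp hp hG.continuous
  | n + 1, G, hG => by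
    have hG' := contDiff_infty_iff_deriv.1 hG
    have hd : ∀ t ∈ Icc a b, Differentiable ℝ (p t) := fun t ht =>
      (hp.smooth t ht).differentiable (by simp)
    refine ⟨cb0_comp hp hG.continuous, fun t ht => ?_, ?_⟩
    · exact hG'.1.comp (hd t ht)
    · have h1 : CBn a b n (fun t x => deriv (p t) x) := by
        have := cbn_iter hp n 1
        simpa only [iteratedDeriv_one] using this
      refine CBn.congr n (CBn.mul n (cbn_comp hp n hG'.2) h1) ?_
      intro t ht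
      funext x
      exact (((hG'.1 (p t x)).hasDerivAt.comp x ((hd t ht) x).hasDerivAt).deriv).symm

lemma CBn.iter {a b : ℝ} : ∀ (n : ℕ) {F : ℝ → ℝ → ℝ}, CBn a b n F →
    CB0 a b (fun t x => iteratedDeriv n (F t) x)
  | 0, F, h => by
    simp only [iteratedDeriv_zero]
    exact h
  | n + 1, F, h => by
    have := CBn.iter n h.2.2
    simp only [iteratedDeriv_succ']
    exact this

/-- Composition of an admissible field with a smooth function. -/
theorem binf_comp {a b : ℝ} {p pt : ℝ → ℝ → ℝ} (hp : BInf p pt a b) {G : ℝ → ℝ}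
    (hG : ContDiff ℝ (⊤ : ℕ∞) G) :
    BInf (fun t x => G (p t x)) (fun t x => deriv G (p t x) * pt t x) a b := by
  have hG' := contDiff_infty_iff_deriv.1 hG
  have h1 : CB0 a b (fun t x => deriv G (p t x) * pt t x) :=
    (cb0_comp hp hG'.2.continuous).mul ⟨hp.contt, hp.boundt⟩
  refine ⟨fun t ht => hG.comp (hp.smooth t ht), fun k => (CBn.iter k (cbn_comp hp k hG)).1,
    fun k => (CBn.iter k (cbn_comp hp k hG)).2, fun t ht x => ?_, h1.1, h1.2⟩
  exact (hG'.1 (p t x)).hasDerivAt.comp_hasDerivWithinAt t (hp.dt t ht x)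

/-! ### The chain rule up to order three -/

lemma deriv_comp_eq {G φ : ℝ → ℝ} (hG : Differentiable ℝ G) (hφ : Differentiable ℝ φ) :
    deriv (fun x => G (φ x)) = fun x => deriv G (φ x) * deriv φ x := by
  funext x
  exact ((hG (φ x)).hasDerivAt.comp x (hφ x).hasDerivAt).deriv

lemma chain3 {G φ : ℝ → ℝ} (hG : ContDiff ℝ (⊤ : ℕ∞) G) (hφ : ContDiff ℝ (⊤ : ℕ∞) φ) (x : ℝ) :
    iteratedDeriv 1 (fun x => G (φ x)) x = iteratedDeriv 1 G (φ x) * deriv φ x ∧
    iteratedDeriv 2 (fun x => G (φ x)) x =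
      iteratedDeriv 2 G (φ x) * deriv φ x ^ 2 + iteratedDeriv 1 G (φ x) * iteratedDeriv 2 φ x ∧
    iteratedDeriv 3 (fun x => G (φ x)) x = iteratedDeriv 3 G (φ x) * deriv φ x ^ 3 +
      3 * (iteratedDeriv 2 G (φ x) * deriv φ x * iteratedDeriv 2 φ x) +
      iteratedDeriv 1 G (φ x) * iteratedDeriv 3 φ x := by
  have hG1 := contDiff_infty_iff_deriv.1 hG
  have hG2 := contDiff_infty_iff_deriv.1 hG1.2
  have hG3 := contDiff_infty_iff_deriv.1 hG2.2
  have hφ1 := contDiff_infty_iff_deriv.1 hφ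
  have hφ2 := contDiff_infty_iff_deriv.1 hφ1.2
  have hφ3 := contDiff_infty_iff_deriv.1 hφ2.2
  have e1 := deriv_comp_eq hG1.1 hφ1.1
  have d1 : ∀ x, HasDerivAt (fun x => deriv G (φ x)) (deriv (deriv G) (φ x) * deriv φ x) x :=
    fun x => (hG2.1 (φ x)).hasDerivAt.comp x (hφ1.1 x).hasDerivAt
  have d2 : ∀ x, HasDerivAt (fun x => deriv (deriv G) (φ x))
      (deriv (deriv (deriv G)) (φ x) * deriv φ x) x :=
    fun x => (hG3.1 (φ x)).hasDerivAt.comp x (hφ1.1 x).hasDerivAt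
  have p1 : ∀ x, HasDerivAt (deriv φ) (deriv (deriv φ) x) x := fun x => (hφ2.1 x).hasDerivAt
  have p2 : ∀ x, HasDerivAt (deriv (deriv φ)) (deriv (deriv (deriv φ)) x) x :=
    fun x => (hφ3.1 x).hasDerivAt
  have e2 : deriv (fun x => deriv G (φ x) * deriv φ x) = fun x =>
      deriv (deriv G) (φ x) * deriv φ x ^ 2 + deriv G (φ x) * deriv (deriv φ) x := by
    funext x
    refine ((d1 x).mul (p1 x)).deriv.trans ?_
    ring
  have e3 : deriv (fun x =>
      deriv (deriv G) (φ x) * deriv φ x ^ 2 + deriv G (φ x) * deriv (deriv φ) x) x =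
      deriv (deriv (deriv G)) (φ x) * deriv φ x ^ 3 +
      3 * (deriv (deriv G) (φ x) * deriv φ x * deriv (deriv φ) x) +
      deriv G (φ x) * deriv (deriv (deriv φ)) x := by
    refine (((d2 x).mul ((p1 x).pow 2)).add ((d1 x).mul (p2 x))).deriv.trans ?_
    simp only [Pi.pow_apply]
    push_cast
    ring
  have i2 : ∀ f : ℝ → ℝ, iteratedDeriv 2 f = deriv (deriv f) := by
    intro f
    rw [iteratedDeriv_succ', iteratedDeriv_one]
  have i3 : ∀ f : ℝ → ℝ, iteratedDeriv 3 f = deriv (deriv (deriv f)) := by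
    intro f
    rw [iteratedDeriv_succ', i2]
  refine ⟨?_, ?_, ?_⟩
  · rw [iteratedDeriv_one, iteratedDeriv_one, e1]
  · rw [i2, i2, i2, iteratedDeriv_one, e1, e2]
  · rw [i3, i3, i3, i2, i2, iteratedDeriv_one, e1, e2, e3]

/-! ### Functions which are constant off `[1/4, 3/4]` -/

lemma der_zero {G : ℝ → ℝ} {c1 c2 : ℝ} (hl : ∀ s, s ≤ 1 / 4 → G s = c1)
    (hr : ∀ s, 3 / 4 ≤ s → G s = c2) (k : ℕ) (hk : 1 ≤ k) (s : ℝ)
    (hs : s < 1 / 4 ∨ 3 / 4 < s) : iteratedDeriv k G s = 0 := by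
  rcases hs with hs | hs
  · have h : G =ᶠ[𝓝 s] fun _ => c1 := by
      filter_upwards [Iio_mem_nhds hs] with y hy
      exact hl y (le_of_lt hy)
    rw [h.iteratedDeriv_eq, iteratedDeriv_const, if_neg (by omega)]
  · have h : G =ᶠ[𝓝 s] fun _ => c2 := by
      filter_upwards [Ioi_mem_nhds hs] with y hy
      exact hr y (le_of_lt hy)
    rw [h.iteratedDeriv_eq, iteratedDeriv_const, if_neg (by omega)]

lemma der_bound {G : ℝ → ℝ} (hG : ContDiff ℝ (⊤ : ℕ∞) G) {c1 c2 : ℝ}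
    (hl : ∀ s, s ≤ 1 / 4 → G s = c1) (hr : ∀ s, 3 / 4 ≤ s → G s = c2) :
    ∃ M : ℝ, 0 ≤ M ∧ ∀ k : ℕ, 1 ≤ k → k ≤ 3 → ∀ s, |iteratedDeriv k G s| ≤ M := by
  have hb : ∀ k : ℕ, ∃ M : ℝ, 0 ≤ M ∧ (1 ≤ k → ∀ s, |iteratedDeriv k G s| ≤ M) := by
    intro k
    obtain ⟨D, hD⟩ := (isCompact_Icc (a := (1 / 4 : ℝ)) (b := 3 / 4)).exists_bound_of_continuousOn
      (hG.continuous_iteratedDeriv k (by exact_mod_cast le_top)).continuousOn
    refine ⟨|D|, abs_nonneg _, fun hk s => ?_⟩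
    by_cases hs : s ∈ Icc (1 / 4 : ℝ) (3 / 4)
    · exact (hD s hs).trans (le_abs_self D)
    · rw [der_zero hl hr k hk s ?_, abs_zero]
      · exact abs_nonneg _
      · rw [mem_Icc, not_and_or, not_le, not_le] at hs
        exact hs
  obtain ⟨M1, h10, h1⟩ := hb 1
  obtain ⟨M2, h20, h2⟩ := hb 2
  obtain ⟨M3, h30, h3⟩ := hb 3
  refine ⟨M1 + M2 + M3, by positivity, fun k hk hk3 s => ?_⟩
  interval_cases k
  · exact (h1 le_rfl s).trans (by linarith)
  · exact (h2 (by norm_num) s).trans (by linarith)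
  · exact (h3 (by norm_num) s).trans (by linarith)

/-! ### The cut-off profile -/

/-- the profile -/
def Psi (s : ℝ) : ℝ := Real.smoothTransition (3 / 2 - 2 * s)

lemma psi_smooth : ContDiff ℝ (⊤ : ℕ∞) Psi :=
  Real.smoothTransition.contDiff.comp (by fun_prop)

lemma psi_l (s : ℝ) (hs : s ≤ 1 / 4) : Psi s = 1 :=
  Real.smoothTransition.one_of_one_le (by linarith)

lemma psi_r (s : ℝ) (hs : 3 / 4 ≤ s) : Psi s = 0 :=
  Real.smoothTransition.zero_of_nonpos (by linarith)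

lemma psi_anti : Antitone Psi := fun _ _ h => Real.smoothTransition.monotone (by linarith)

lemma psi_deriv (s : ℝ) :
    HasDerivAt Psi (-2 * deriv Real.smoothTransition (3 / 2 - 2 * s)) s := by
  have h1 : HasDerivAt Real.smoothTransition (deriv Real.smoothTransition (3 / 2 - 2 * s))
      (3 / 2 - 2 * s) :=
    ((Real.smoothTransition.contDiff (n := ⊤)).differentiable (by simp) _).hasDerivAt
  have h2 : HasDerivAt (fun s : ℝ => 3 / 2 - 2 * s) (-2) s := by
    have := ((hasDerivAt_id s).const_mul (2 : ℝ)).const_sub (3 / 2)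
    simpa using this
  have := h1.comp s h2
  rw [mul_comm] at this
  exact this

/-- the tenth power of the profile -/
def Psi10 (s : ℝ) : ℝ := Psi s ^ 10

lemma psi10_smooth : ContDiff ℝ (⊤ : ℕ∞) Psi10 := psi_smooth.pow 10

lemma psi10_l (s : ℝ) (hs : s ≤ 1 / 4) : Psi10 s = 1 := by rw [Psi10, psi_l s hs, one_pow]

lemma psi10_r (s : ℝ) (hs : 3 / 4 ≤ s) : Psi10 s = 0 := by
  rw [Psi10, psi_r s hs]; norm_num

lemma psi_nonneg (s : ℝ) : 0 ≤ Psi s := Real.smoothTransition.nonneg _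

lemma psi_le_one (s : ℝ) : Psi s ≤ 1 := Real.smoothTransition.le_one _

lemma psi10_anti : Antitone Psi10 := fun _ _ h =>
  pow_le_pow_left₀ (psi_nonneg _) (psi_anti h) 10

lemma psi10_deriv (s : ℝ) : deriv Psi10 s =
    10 * Psi s ^ 9 * (-2 * deriv Real.smoothTransition (3 / 2 - 2 * s)) := by
  have h : HasDerivAt Psi10 _ s := (psi_deriv s).pow 10
  rw [h.deriv]
  push_cast
  ring

/-! ### Elementary facts on the weight -/

lemma wt_lt {K ρ y : ℝ} (hρ : 0 < ρ) : wt K ρ y < 1 / 4 ↔ 3 < ρ * Real.exp (-(y / K)) := by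
  have : 0 < ρ * Real.exp (-(y / K)) := by positivity
  rw [wt, div_lt_div_iff₀ (by positivity) (by norm_num)]
  constructor <;> intro h <;> linarith

lemma wt_gt {K ρ y : ℝ} (hρ : 0 < ρ) : 3 / 4 < wt K ρ y ↔ ρ * Real.exp (-(y / K)) < 1 / 3 := by
  have : 0 < ρ * Real.exp (-(y / K)) := by positivity
  rw [wt, div_lt_div_iff₀ (by norm_num) (by positivity)]
  constructor <;> intro h <;> linarith

lemma sq_le_exp {u : ℝ} (hu : 0 ≤ u) : u ^ 2 / 2 ≤ Real.exp u := by
  have := Real.quadratic_le_exp_of_nonneg hu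
  linarith

lemma wt_near {K ρ y : ℝ} (hK : 1 ≤ K) (hρ : 0 < ρ) (hρ2 : ρ ≤ 1 / (216 * K ^ 2))
    (h1 : 1 / 4 ≤ wt K ρ y) (h2 : wt K ρ y ≤ 3 / 4) : y ≤ 0 ∧ |ρ * y| ≤ 1 / 6 := by
  have e1 : ρ * Real.exp (-(y / K)) ≤ 3 := by
    by_contra h
    exact absurd ((wt_lt hρ).2 (not_le.1 h)) (not_lt.2 h1)
  have e2 : 1 / 3 ≤ ρ * Real.exp (-(y / K)) := by
    by_contra h
    exact absurd ((wt_gt hρ).2 (not_le.1 h)) (not_lt.2 h2)
  have hK0 : 0 < K := by linarith
  have hK2 : 1 ≤ K ^ 2 := by nlinarith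
  have hρ3 : ρ * (216 * K ^ 2) ≤ 1 := by rwa [le_div_iff₀ (by positivity)] at hρ2
  have hρ4 : ρ ≤ 1 / 216 := by
    rw [le_div_iff₀ (by norm_num)]
    nlinarith
  have hy : y ≤ 0 := by
    by_contra h
    have h3 : Real.exp (-(y / K)) ≤ 1 := by
      rw [Real.exp_le_one_iff]
      have : 0 ≤ y / K := div_nonneg (not_le.1 h).le hK0.le
      linarith
    nlinarith
  refine ⟨hy, ?_⟩
  have hu : 0 ≤ -(y / K) := by
    have : y / K ≤ 0 := div_nonpos_of_nonpos_of_nonneg hy hK0.le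
    linarith
  have h4 := sq_le_exp hu
  have h5 : ρ * (y / K) ^ 2 ≤ 6 := by
    have : ρ * ((-(y / K)) ^ 2 / 2) ≤ 3 := (mul_le_mul_of_nonneg_left h4 hρ.le).trans e1
    nlinarith
  have h6 : (y / K) ^ 2 * K ^ 2 = y ^ 2 := by
    rw [div_pow]
    field_simp
  have h7 : (ρ * y) ^ 2 ≤ (1 / 6) ^ 2 := by
    have : (ρ * y) ^ 2 = (ρ * (y / K) ^ 2) * (ρ * K ^ 2) := by
      rw [mul_pow, ← h6]; ring
    rw [this]
    have h8 : ρ * K ^ 2 ≤ 1 / 216 := by linarith
    calc (ρ * (y / K) ^ 2) * (ρ * K ^ 2) ≤ 6 * (1 / 216) :=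
          mul_le_mul h5 h8 (by positivity) (by norm_num)
      _ = (1 / 6) ^ 2 := by norm_num
  exact abs_le_of_sq_le_sq h7 (by norm_num)

lemma wt_left {K ρ y : ℝ} (hK : 1 ≤ K) (hρ : 0 < ρ) (hρ2 : ρ ≤ 1 / (216 * K ^ 2))
    (hy : ρ * y ≤ -1) : wt K ρ y < 1 / 4 := by
  rw [wt_lt hρ]
  have hK0 : 0 < K := by linarith
  have hρ3 : ρ * (216 * K ^ 2) ≤ 1 := by rwa [le_div_iff₀ (by positivity)] at hρ2
  have hy0 : y < 0 := by
    by_contra h
    have := mul_nonneg hρ.le (not_lt.1 h)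
    linarith
  have hu : 0 ≤ -(y / K) := by
    have : y / K ≤ 0 := div_nonpos_of_nonpos_of_nonneg hy0.le hK0.le
    linarith
  have h4 := sq_le_exp hu
  have h6 : (y / K) ^ 2 * K ^ 2 = y ^ 2 := by
    rw [div_pow]
    field_simp
  -- `(ρ y)^2 >= 1`
  have h7 : 1 ≤ (ρ * y) ^ 2 := by nlinarith
  have h8 : (ρ * y) ^ 2 = (ρ * (y / K) ^ 2) * (ρ * K ^ 2) := by
    rw [mul_pow, ← h6]; ring
  have h9 : ρ * K ^ 2 ≤ 1 / 216 := by linarith
  have h10 : 0 ≤ ρ * (y / K) ^ 2 := by positivity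
  have h11 : 216 ≤ ρ * (y / K) ^ 2 := by
    have : 1 ≤ (ρ * (y / K) ^ 2) * (1 / 216) := by
      calc (1 : ℝ) ≤ (ρ * (y / K) ^ 2) * (ρ * K ^ 2) := by rw [← h8]; exact h7
        _ ≤ _ := mul_le_mul_of_nonneg_left h9 h10
    linarith
  have h12 : ρ * ((-(y / K)) ^ 2 / 2) ≤ ρ * Real.exp (-(y / K)) :=
    mul_le_mul_of_nonneg_left h4 hρ.le
  have h13 : ρ * ((-(y / K)) ^ 2 / 2) = ρ * (y / K) ^ 2 / 2 := by ring
  linarith

lemma wt_right {K ρ y : ℝ} (hK : 1 ≤ K) (hρ : 0 < ρ) (hρ2 : ρ ≤ 1 / (216 * K ^ 2))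
    (hy : 0 ≤ y) : 3 / 4 < wt K ρ y := by
  rw [wt_gt hρ]
  have hK0 : 0 < K := by linarith
  have hK2 : 1 ≤ K ^ 2 := by nlinarith
  have hρ3 : ρ * (216 * K ^ 2) ≤ 1 := by rwa [le_div_iff₀ (by positivity)] at hρ2
  have hρ4 : ρ ≤ 1 / 216 := by
    rw [le_div_iff₀ (by norm_num)]
    nlinarith
  have h3 : Real.exp (-(y / K)) ≤ 1 := by
    rw [Real.exp_le_one_iff]
    have : 0 ≤ y / K := div_nonneg hy hK0.le
    linarith
  nlinarith [Real.exp_pos (-(y / K))]

/-! ### Small times -/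

lemma small (h3 : S_SCL) {α K : ℝ} (hα : 0 < α) (hα1 : α < 1) (hK : 1 ≤ K) :
    ∃ T0 : ℝ, 0 < T0 ∧ T0 ≤ 1 ∧ (4 * α + 3) * T0 ≤ 1 ∧ ∀ t, 0 < t → t ≤ T0 →
      0 < sig α t ∧ sig α t ≤ 1 / 4 ∧ 0 < lam α t ∧ lam α t ≤ 1 ∧ 0 < rho α t ∧
      rho α t ≤ 1 / (216 * K ^ 2) ∧ lam α t ≤ rho α t := by
  set ε : ℝ := 1 / (216 * K ^ 2) with hε
  have hε0 : 0 < ε := by positivity
  set s0 : ℝ := min (1 / 4) (ε ^ (1 / (2 * α))) with hs0
  have hs00 : 0 < s0 := lt_min (by norm_num) (Real.rpow_pos_of_pos hε0 _)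
  have hs01 : s0 ≤ 1 / 4 := min_le_left _ _
  have ha : 0 < 4 * α + 3 := by linarith
  have hpow : s0 ^ (4 * α + 3) ≤ 1 :=
    Real.rpow_le_one hs00.le (by linarith) ha.le
  have hpow0 : 0 < s0 ^ (4 * α + 3) := Real.rpow_pos_of_pos hs00 _
  have hT : (4 * α + 3) * (s0 ^ (4 * α + 3) / (4 * α + 3)) = s0 ^ (4 * α + 3) := by
    field_simp
  refine ⟨s0 ^ (4 * α + 3) / (4 * α + 3), by positivity, ?_, ?_, ?_⟩
  · rw [div_le_one ha]
    linarith
  · rw [hT]; exact hpow
  · intro t ht htT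
    have h4 : (4 * α + 3) * t ≤ s0 ^ (4 * α + 3) := by
      rw [← hT]
      exact mul_le_mul_of_nonneg_left htT ha.le
    obtain ⟨k1, -, k2, k3, k4, -, k5, -⟩ := h3 α t hα hα1 ht (h4.trans hpow)
    have h5 : sig α t ≤ s0 := by
      rw [sig]
      calc ((4 * α + 3) * t) ^ (1 / (4 * α + 3)) ≤ (s0 ^ (4 * α + 3)) ^ (1 / (4 * α + 3)) :=
            Real.rpow_le_rpow (by positivity) h4 (by positivity)
        _ = s0 := by
            rw [← Real.rpow_mul hs00.le, mul_one_div_cancel ha.ne', Real.rpow_one]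
    have h6 : rho α t ≤ ε := by
      rw [rho]
      calc sig α t ^ (2 * α) ≤ (ε ^ (1 / (2 * α))) ^ (2 * α) :=
            Real.rpow_le_rpow k1.le (h5.trans (min_le_right _ _)) (by positivity)
        _ = ε := by
            rw [← Real.rpow_mul hε0.le, one_div_mul_cancel (by positivity), Real.rpow_one]
    exact ⟨k1, h5.trans hs01, k2, k3, k4, h6, k5⟩

/-! ### The main statement -/

lemma dJ_eq (α K t : ℝ) : dJ α K t = fun x => Psi (pW α K t x) := rfl

lemma cJ_eq (α K t : ℝ) : cJ α K t = fun x => Psi10 (pW α K t x) := rfl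

lemma dJt_eq (α K t x : ℝ) : dJt α K t x = deriv Psi (pW α K t x) * pWt α K t x := by
  rw [dJt, (psi_deriv _).deriv]; ring

lemma cJt_eq (α K t x : ℝ) : cJt α K t x = deriv Psi10 (pW α K t x) * pWt α K t x := by
  rw [cJt, psi10_deriv, dJt, dJ, Psi]; ring

lemma ind_in {α K t x : ℝ} (h : x ∈ nearS α K t) : ind α K t x = 1 := by
  rw [ind, indicator_of_mem h]

lemma ind_out {α K t x : ℝ} (h : x ∉ nearS α K t) : ind α K t x = 0 := by
  rw [ind, indicator_of_notMem h]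

lemma not_near {α K t x : ℝ} (h : x ∉ nearS α K t) :
    pW α K t x < 1 / 4 ∨ 3 / 4 < pW α K t x := by
  rw [nearS, mem_ofPred_eq, not_and_or, not_le, not_le] at h
  exact h

lemma pw_smooth (h1 : S_WT0) {α K t : ℝ} (hK : 0 < K) (hρ : 0 < rho α t) :
    ContDiff ℝ (⊤ : ℕ∞) (pW α K t) :=
  (h1 K (rho α t) hK hρ).1.comp (by fun_prop)

/-- the derivative bounds for a profile -/
lemma comp_bound (h1 : S_WT0) (h2 : S_WTF) {α K : ℝ} (hα : 0 < α) (hα1 : α < 1) (hK : 1 ≤ K)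
    {G : ℝ → ℝ} (hG : ContDiff ℝ (⊤ : ℕ∞) G) {c1 c2 : ℝ}
    (hl : ∀ s, s ≤ 1 / 4 → G s = c1) (hr : ∀ s, 3 / 4 ≤ s → G s = c2) {M : ℝ} (hM : 0 ≤ M)
    (hMb : ∀ k : ℕ, 1 ≤ k → k ≤ 3 → ∀ s, |iteratedDeriv k G s| ≤ M)
    {t : ℝ} (ht : 0 < t) (hρ : 0 < rho α t) (hl0 : 0 < lam α t) (k : ℕ) (hk : 1 ≤ k)
    (hk3 : k ≤ 3) (x : ℝ) :
    |iteratedDeriv k (fun x => G (pW α K t x)) x| ≤ 5 * M / lam α t ^ k * ind α K t x := by
  have hK0 : 0 < K := by linarith
  obtain ⟨e1, e2, e3⟩ := chain3 hG (pw_smooth h1 hK0 hρ) x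
  by_cases hx : x ∈ nearS α K t
  · rw [ind_in hx, mul_one]
    obtain ⟨w1, w2, w3, w4, w5, w6, w7, w8, -⟩ := h1 K (rho α t) hK0 hρ
    set y : ℝ := (x - sig α t) / lam α t with hy
    obtain ⟨f1, f2, f3⟩ := (h2 α hα hα1 K hK t t ht le_rfl).2.2.2 t ⟨le_rfl, le_rfl⟩ x
    rw [← hy] at f1 f2 f3
    obtain ⟨g1, g2, g3, g4⟩ := w8 y
    have g5 : ph1 K (rho α t) y ≤ 1 := by
      refine g2.trans ?_
      rw [div_le_one hK0]
      exact (w3 y).2.le.trans hK
    have g6 : |ph2 K (rho α t) y| ≤ 1 := by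
      refine g3.trans ?_
      rw [div_le_one hK0]
      exact g5.trans hK
    have g7 : |ph3 K (rho α t) y| ≤ 1 := by
      refine g4.trans ?_
      rw [div_le_one (by positivity)]
      nlinarith
    have b1 : |deriv (pW α K t) x| ≤ 1 / lam α t := by
      rw [f1, abs_div, abs_of_pos hl0, abs_of_pos g1]
      gcongr
    have b2 : |iteratedDeriv 2 (pW α K t) x| ≤ 1 / lam α t ^ 2 := by
      rw [f2, abs_div, abs_of_pos (pow_pos hl0 2)]
      gcongr
    have b3 : |iteratedDeriv 3 (pW α K t) x| ≤ 1 / lam α t ^ 3 := by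
      rw [f3, abs_div, abs_of_pos (pow_pos hl0 3)]
      gcongr
    have m1 := hMb 1 le_rfl (by norm_num) (pW α K t x)
    have m2 := hMb 2 (by norm_num) (by norm_num) (pW α K t x)
    have m3 := hMb 3 (by norm_num) le_rfl (pW α K t x)
    interval_cases k
    · rw [e1, abs_mul]
      calc _ ≤ M * (1 / lam α t) := mul_le_mul m1 b1 (abs_nonneg _) hM
        _ = M / lam α t ^ 1 := by rw [pow_one]; ring
        _ ≤ 5 * M / lam α t ^ 1 := by gcongr; linarith
    · rw [e2]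
      refine (abs_add_le _ _).trans ?_
      rw [abs_mul, abs_mul, abs_pow]
      calc _ ≤ M * (1 / lam α t) ^ 2 + M * (1 / lam α t ^ 2) := by gcongr
        _ = 2 * M / lam α t ^ 2 := by ring
        _ ≤ 5 * M / lam α t ^ 2 := by gcongr; norm_num
    · rw [e3]
      refine (abs_add_three _ _ _).trans ?_
      rw [abs_mul, abs_mul, abs_mul, abs_mul, abs_mul, abs_pow, abs_of_pos (by norm_num : (0:ℝ) < 3)]
      calc _ ≤ M * (1 / lam α t) ^ 3 + 3 * (M * (1 / lam α t) * (1 / lam α t ^ 2)) +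
            M * (1 / lam α t ^ 3) := by gcongr
        _ = 5 * M / lam α t ^ 3 := by
            field_simp
            ring
  · rw [ind_out hx, mul_zero]
    have h := not_near hx
    have z := fun k hk => der_zero hl hr k hk (pW α K t x) h
    have : iteratedDeriv k (fun x => G (pW α K t x)) x = 0 := by
      interval_cases k
      · rw [e1, z 1 le_rfl]; ring
      · rw [e2, z 1 le_rfl, z 2 (by norm_num)]; ring
      · rw [e3, z 1 le_rfl, z 2 (by norm_num), z 3 (by norm_num)]; ring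
    rw [this, abs_zero]

/-- **CUT.** -/
theorem cut (h1 : S_WT0) (h2 : S_WTF) (h3 : S_SCL) : S_CUT := by
  intro α K hα hα1 hK
  have hK0 : 0 < K := by linarith
  obtain ⟨T0, hT0, hT1, hT2, hs⟩ := small h3 hα hα1 hK
  obtain ⟨M, hM, hMb⟩ := der_bound psi_smooth psi_l psi_r
  obtain ⟨M', hM', hMb'⟩ := der_bound psi10_smooth psi10_l psi10_r
  refine ⟨5 * M + 5 * M' + 1, T0, by positivity, hT0, hT1, hT2, ?_, ?_⟩
  · intro t ht htT
    obtain ⟨s1, s2, l1, l2, r1, r2, lr⟩ := hs t ht htT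
    have hnear : ∀ x ∈ nearS α K t, (x - sig α t) / lam α t ≤ 0 ∧
        |rho α t * ((x - sig α t) / lam α t)| ≤ 1 / 6 := fun x hx =>
      wt_near hK r1 r2 hx.1 hx.2
    have hcont : Continuous (pW α K t) := (pw_smooth h1 hK0 r1).continuous
    refine ⟨s2, fun x => ⟨psi_nonneg _, psi_le_one _⟩, ?_, ?_, fun x hx => psi_l _ hx,
      fun x hx => psi_r _ hx, ?_, ?_, ?_, ?_, ?_, ?_⟩
    · intro x hx
      refine wt_left hK r1 r2 ?_
      have e : rho α t * ((x - sig α t) / lam α t) = (rho α t / lam α t) * (x - sig α t) := by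
        ring
      rw [e]
      have : 1 ≤ rho α t / lam α t := by rwa [le_div_iff₀ l1, one_mul]
      nlinarith
    · intro x hx
      exact wt_right hK r1 r2 (div_nonneg (by linarith) l1.le)
    · intro x hx
      have e : (1 / 2 : ℝ) = Real.smoothTransition (1 / 2) := by
        have p := expNegInvGlue.pos_of_pos (x := 1 / 2) (by norm_num)
        rw [Real.smoothTransition]
        norm_num
        rw [eq_div_iff (by positivity)]
        ring
      have : Real.smoothTransition (1 / 2) ≤ Real.smoothTransition (3 / 2 - 2 * pW α K t x) :=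
        Real.smoothTransition.monotone (by linarith)
      rw [dJ]
      linarith
    · intro x hx
      obtain ⟨n1, n2⟩ := hnear x hx
      have e : x = sig α t + lam α t * ((x - sig α t) / lam α t) := by
        field_simp
        ring
      set y := (x - sig α t) / lam α t with hy
      have n3 := (abs_le.1 n2).1
      constructor
      · have : rho α t * y ≤ lam α t * y := mul_le_mul_of_nonpos_right lr n1
        linarith
      · have : lam α t * y ≤ 0 := mul_nonpos_of_nonneg_of_nonpos l1.le n1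
        linarith
    · exact (measurableSet_le measurable_const hcont.measurable).inter
        (measurableSet_le hcont.measurable measurable_const)
    · intro k hk hk3 x
      have i0 : 0 ≤ ind α K t x := by
        by_cases hx : x ∈ nearS α K t
        · rw [ind_in hx]; exact zero_le_one
        · rw [ind_out hx]
      constructor
      · rw [dJ_eq]
        refine (comp_bound h1 h2 hα hα1 hK psi_smooth psi_l psi_r hM hMb ht r1 l1 k hk hk3 x).trans
          ?_
        gcongr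
        linarith
      · rw [cJ_eq]
        refine (comp_bound h1 h2 hα hα1 hK psi10_smooth psi10_l psi10_r hM' hMb' ht r1 l1 k hk hk3
          x).trans ?_
        gcongr
        linarith
    · intro x
      have hd1 : deriv (cJ α K t) x = deriv Psi10 (pW α K t x) * deriv (pW α K t) x := by
        rw [cJ_eq, deriv_comp_eq (psi10_smooth.differentiable (by simp))
          ((pw_smooth h1 hK0 r1).differentiable (by simp))]
      have hneg : deriv Psi10 (pW α K t x) ≤ 0 := psi10_anti.deriv_nonpos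
      obtain ⟨w1, w2, w3, w4, w5, w6, w7, w8, -⟩ := h1 K (rho α t) hK0 r1
      obtain ⟨g1, g2, g3, g4⟩ := w8 ((x - sig α t) / lam α t)
      have f1 := ((h2 α hα hα1 K hK t t ht le_rfl).2.2.2 t ⟨le_rfl, le_rfl⟩ x).1
      have hd2 : deriv (cJ α K t) x ≤ 0 := by
        rw [hd1, f1]
        exact mul_nonpos_of_nonpos_of_nonneg hneg (div_nonneg g1.le l1.le)
      rw [cJt_eq]
      by_cases hx : x ∈ nearS α K t
      · obtain ⟨n1, n2⟩ := hnear x hx
        set y := (x - sig α t) / lam α t with hy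
        have hb1 : |(2 * α + 1) * (rho α t * y)| ≤ 1 / 2 := by
          rw [abs_mul, abs_of_pos (by linarith : 0 < 2 * α + 1)]
          nlinarith [abs_nonneg (rho α t * y)]
        have hr3 : rho α t * (216 * K ^ 2) ≤ 1 := by rwa [le_div_iff₀ (by positivity)] at r2
        have hb2 : 2 * α * K * rho α t ≤ 1 := by
          have : K ≤ K ^ 2 := by nlinarith
          have h5 : rho α t * K ≤ rho α t * K ^ 2 := mul_le_mul_of_nonneg_left this r1.le
          have h6 : 0 < rho α t * K := by positivity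
          nlinarith
        have hb3 : 0 ≤ 2 * α * K * rho α t := by positivity
        set b : ℝ := 1 + (2 * α + 1) * rho α t * y + 2 * α * K * rho α t with hb
        have hb4 : 0 ≤ b := by
          have := (abs_le.1 hb1).1
          rw [hb]
          nlinarith
        have hb5 : b ≤ 3 := by
          have := (abs_le.1 hb1).2
          rw [hb]
          nlinarith
        have g5 : ph1 K (rho α t) y ≤ 1 := by
          refine g2.trans ?_
          rw [div_le_one hK0]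
          exact (w3 y).2.le.trans hK
        have hp : pWt α K t x = -(ph1 K (rho α t) y / lam α t ^ 3 * b) := rfl
        have hq0 : 0 ≤ ph1 K (rho α t) y / lam α t ^ 3 * b := by
          have := pow_pos l1 3
          positivity
        have hq1 : ph1 K (rho α t) y / lam α t ^ 3 * b ≤ 3 / lam α t ^ 3 := by
          calc ph1 K (rho α t) y / lam α t ^ 3 * b ≤ 1 / lam α t ^ 3 * 3 := by gcongr
            _ = 3 / lam α t ^ 3 := by ring
        have hm := hMb' 1 le_rfl (by norm_num) (pW α K t x)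
        rw [iteratedDeriv_one] at hm
        refine ⟨?_, ?_, hd2⟩
        · rw [ind_in hx, mul_one, hp, abs_mul, abs_neg, abs_of_nonneg hq0]
          calc _ ≤ M' * (3 / lam α t ^ 3) := mul_le_mul hm hq1 hq0 hM'
            _ = 3 * M' / lam α t ^ 3 := by ring
            _ ≤ _ := by gcongr; linarith
        · rw [hp]
          nlinarith
      · have hz : deriv Psi10 (pW α K t x) = 0 := by
          have := der_zero psi10_l psi10_r 1 le_rfl (pW α K t x) (not_near hx)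
          rwa [iteratedDeriv_one] at this
        rw [hz, zero_mul, ind_out hx, mul_zero, abs_zero]
        exact ⟨le_rfl, le_rfl, hd2⟩
    · intro x
      by_cases hx : x ∈ nearS α K t
      · rw [ind_in hx]
        have e1 : dJ α K t x ^ 2 ≤ 1 := pow_le_one₀ (psi_nonneg _) (psi_le_one _)
        have e2 : 0 ≤ cJ α K t x := pow_nonneg (psi_nonneg _) 10
        linarith
      · rw [ind_out hx, add_zero, cJ, dJ_eq]
        rcases not_near hx with h | h
        · simp only [psi_l _ h.le]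
          norm_num
        · simp only [psi_r _ h.le]
          norm_num
  · intro t1 t2 ht1 ht12 ht2
    have hB := (h2 α hα hα1 K hK t1 t2 ht1 ht12).2.1
    constructor
    · have := binf_comp hB psi_smooth
      have e : dJt α K = fun t x => deriv Psi (pW α K t x) * pWt α K t x := by
        funext t x
        exact dJt_eq α K t x
      rw [e]
      exact this
    · have := binf_comp hB psi10_smooth
      have e : cJt α K = fun t x => deriv Psi10 (pW α K t x) * pWt α K t x := by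
        funext t x
        exact cJt_eq α K t x
      rw [e]
      exact this

end Pool.Agent.Helper97.KV
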